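import Pool.Agent.Helper44.HD.GoalsH

/-! # Project HD, packet EQ: two realizations of a bimodule give cohomologous cochains -/

set_option autoImplicit false

open Finset

namespace Pool.Agent.Helper57.HD

open Pool.Agent.Helper44.HD

/-- the trace form of matrices supported on a subset of the rows -/
theorem tc_sub {k E κ μ : Type} [Field k] [Ring E] [Algebra k E] [Fintype κ] [Fintype μ] {n : ℕ}
    {φ : (ℕ → E) → k} (hφ : Coch k n φ) (e : κ → μ) (he : Function.Injective e)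
    (M : ℕ → Matrix κ κ E) (N : ℕ → Matrix μ μ E) (h1 : ∀ j a b, N j (e a) (e b) = M j a b)
    (h0 : ∀ j a b, a ∉ Set.range e → N j a b = 0) : tc n φ N = tc n φ M := by
  unfold tc
  refine (Fintype.sum_of_injective (fun (ι : Fin (n + 1) → κ) (j : Fin (n + 1)) => e (ι j)) ?_ _ _
    ?_ ?_).symm
  · intro ι ι' h
    funext j
    exact he (congrFun h j)
  · intro ι hι
    have h2 : ∃ j, ι j ∉ Set.range e := by
      by_contra hcon
      push Not at hcon
      choose ι' hι' using hcon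
      exact hι ⟨ι', funext hι'⟩
    obtain ⟨j, hj⟩ := h2
    refine hφ.zero_entry _ j.1 (Nat.lt_succ_iff.1 j.2) ?_
    have h3 : Fin.ofNat (n + 1) j.1 = j := Fin.ext (Nat.mod_eq_of_lt j.2)
    show N j.1 (ι (Fin.ofNat (n + 1) j.1)) _ = 0
    rw [h3]
    exact h0 _ _ _ hj
  · intro ι
    congr 1
    funext j
    exact (h1 _ _ _).symm

theorem eq (hTR : StmtTR) (hIN : StmtIN) : StmtEQ := by
  intro k E A N κ κ' _ _ _ _ _ _ _ _ _ _ _ _ _ X i p i' p' hp hp' n φ hφ
  classical
  set P : Matrix κ κ E := mx (i ∘ₗ p) with hP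
  set P' : Matrix κ' κ' E := mx (i' ∘ₗ p') with hP'
  set U : Matrix κ κ' E := mx (i' ∘ₗ p) with hU
  set V : Matrix κ' κ E := mx (i ∘ₗ p') with hV
  set ρ : A → Matrix κ κ E := fun a => mx (i ∘ₗ X.r a ∘ₗ p) with hρ
  set ρ' : A → Matrix κ' κ' E := fun a => mx (i' ∘ₗ X.r a ∘ₗ p') with hρ'
  have r1 : U * V = P := by
    rw [hU, hV, hP, ← mx_comp]
    refine congrArg mx (LinearMap.ext fun x => ?_)
    simp [hp']
  have r2 : V * U = P' := by
    rw [hU, hV, hP', ← mx_comp]
    refine congrArg mx (LinearMap.ext fun x => ?_)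
    simp [hp]
  have r3 : P * U = U := by
    rw [hU, hP, ← mx_comp]
    refine congrArg mx (LinearMap.ext fun x => ?_)
    simp [hp]
  have r4 : U * P' = U := by
    rw [hU, hP', ← mx_comp]
    refine congrArg mx (LinearMap.ext fun x => ?_)
    simp [hp']
  have r5 : P' * V = V := by
    rw [hV, hP', ← mx_comp]
    refine congrArg mx (LinearMap.ext fun x => ?_)
    simp [hp']
  have r6 : V * P = V := by
    rw [hV, hP, ← mx_comp]
    refine congrArg mx (LinearMap.ext fun x => ?_)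
    simp [hp]
  have r7 : P * P = P := by
    rw [hP, ← mx_comp]
    refine congrArg mx (LinearMap.ext fun x => ?_)
    simp [hp]
  have r8 : P' * P' = P' := by
    rw [hP', ← mx_comp]
    refine congrArg mx (LinearMap.ext fun x => ?_)
    simp [hp']
  have r9 : ∀ a, P * ρ a = ρ a := fun a => by
    rw [hρ, hP, ← mx_comp]
    refine congrArg mx (LinearMap.ext fun x => ?_)
    simp [hp]
  have r10 : ∀ a, ρ a * P = ρ a := fun a => by
    rw [hρ, hP, ← mx_comp]
    refine congrArg mx (LinearMap.ext fun x => ?_)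
    simp [hp]
  have r11 : ∀ a, V * ρ a * U = ρ' a := fun a => by
    rw [hρ, hρ', hV, hU, ← mx_comp, ← mx_comp]
    refine congrArg mx (LinearMap.ext fun x => ?_)
    simp [hp]
  set G : Matrix (κ ⊕ κ') (κ ⊕ κ') E := Matrix.fromBlocks (1 - P) U V (1 - P') with hG
  have hGG : G * G = 1 := by
    rw [hG, Matrix.fromBlocks_multiply, ← Matrix.fromBlocks_one]
    congr 1
    · rw [Matrix.sub_mul, Matrix.mul_sub, Matrix.mul_sub, Matrix.one_mul, Matrix.mul_one,
        Matrix.one_mul, r7, r1]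
      abel
    · rw [Matrix.sub_mul, Matrix.one_mul, Matrix.mul_sub, Matrix.mul_one, r3, r4]
      abel
    · rw [Matrix.sub_mul, Matrix.one_mul, Matrix.mul_sub, Matrix.mul_one, r6, r5]
      abel
    · rw [Matrix.sub_mul, Matrix.mul_sub, Matrix.mul_sub, Matrix.one_mul, Matrix.mul_one,
        Matrix.one_mul, r8, r2]
      abel
  set F : A → Matrix (κ ⊕ κ') (κ ⊕ κ') E := fun a => Matrix.fromBlocks (ρ a) 0 0 0 with hF
  have hGF : ∀ a, G * F a * G = Matrix.fromBlocks 0 0 0 (ρ' a) := by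
    intro a
    rw [hG, hF, Matrix.fromBlocks_multiply, Matrix.fromBlocks_multiply]
    simp only [Matrix.mul_zero, Matrix.zero_mul, add_zero]
    have s1 : (1 - P) * ρ a = 0 := by rw [Matrix.sub_mul, Matrix.one_mul, r9, sub_self]
    have s2 : ρ a * (1 - P) = 0 := by rw [Matrix.mul_sub, Matrix.mul_one, r10, sub_self]
    rw [s1, Matrix.zero_mul, Matrix.zero_mul, Matrix.mul_assoc, s2, Matrix.mul_zero, r11]
  have hFmul : ∀ a b, F (a * b) = F a * F b := by
    intro a b
    rw [hF, Matrix.fromBlocks_multiply]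
    simp only [Matrix.mul_zero, Matrix.zero_mul, add_zero]
    rw [hρ]
    simp only
    rw [rl_mul X i p hp]
  have hFadd : ∀ a b, F (a + b) = F a + F b := by
    intro a b
    rw [hF, Matrix.fromBlocks_add]
    simp only [add_zero]
    rw [hρ]
    simp only
    rw [rl_add X i p]
  have hFsmul : ∀ (c : k) a, F (c • a) = c • F a := by
    intro c a
    rw [hF, Matrix.fromBlocks_smul]
    simp only [smul_zero]
    rw [hρ]
    simp only
    rw [rl_smul X i p]
  have hψ : Cocy (n + 1) (tc (κ := κ ⊕ κ') (n + 1) φ) := by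
    obtain ⟨g1, g2⟩ := hTR k E (κ ⊕ κ') (n + 1) φ hφ.1
    refine ⟨g1, fun x => ?_⟩
    rw [g2 x]
    unfold tc
    exact sum_eq_zero fun ι _ => hφ.2 _
  have h1 := hIN k (Matrix (κ ⊕ κ') (κ ⊕ κ') E) G G hGG hGG n (tc (n + 1) φ) hψ
  have h2 := h1.comp F hFmul hFadd hFsmul
  refine h2.congr fun x => ?_
  simp only [hGF]
  have t1 : tc (n + 1) φ (fun j => (Matrix.fromBlocks 0 0 0 (ρ' (x j)) :
      Matrix (κ ⊕ κ') (κ ⊕ κ') E)) = tc (n + 1) φ (fun j => ρ' (x j)) := by
    refine tc_sub hφ.1 (Sum.inr : κ' → κ ⊕ κ') Sum.inr_injective _ _ (fun j a b => rfl) ?_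
    rintro j (a | a) (b | b) ha
    · rfl
    · rfl
    · exact absurd ⟨a, rfl⟩ ha
    · exact absurd ⟨a, rfl⟩ ha
  have t2 : tc (n + 1) φ (fun j => (Matrix.fromBlocks (ρ (x j)) 0 0 0 :
      Matrix (κ ⊕ κ') (κ ⊕ κ') E)) = tc (n + 1) φ (fun j => ρ (x j)) := by
    refine tc_sub hφ.1 (Sum.inl : κ → κ ⊕ κ') Sum.inl_injective _ _ (fun j a b => rfl) ?_
    rintro j (a | a) (b | b) ha
    · exact absurd ⟨a, rfl⟩ ha
    · exact absurd ⟨a, rfl⟩ ha
    · rfl
    · rfl
  rw [t1, t2]
  rfl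

end Pool.Agent.Helper57.HD
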